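import Mathlib
import Pool.Agent.Helper239.HypC

open Pool.Agent.Helper239.Hyp Pool.Agent.Helper239.HypC

universe u v

/-- Let `A` be a unital C*-algebra, `ψ` a state on `A`, and `g ↦ u_g` a homomorphism from a discrete
group `Γ` to the unitary group of `A` with `ψ(u_g a) = ψ(a u_g)` for all `a ∈ A` and all `g`, and
with `ψ(u_g) = 0` for `g ≠ 1`.  If `A` is approximately amenable, then `Γ` is amenable. -/
theorem Pool.Agent.Results.MP_86f3ed_an.CentralGroup.result
    (A : Type u) [CStarAlgebra A] (Γ : Type v) [Group Γ] (U : Γ →* unitary A)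
    (ψ : A →ₗ[ℂ] ℂ) (hone : ψ 1 = 1)
    (hpos : ∀ a, 0 ≤ (ψ (star a * a)).re ∧ (ψ (star a * a)).im = 0)
    (hcent : ∀ (g : Γ) (a : A), ψ ((U g : A) * a) = ψ (a * (U g : A)))
    (hzero : ∀ g : Γ, g ≠ 1 → ψ (U g : A) = 0)
    (hA : IsApproxAmenable A) : Amenable Γ :=
  amenable_of_state hA U ψ hone hpos hcent hzero
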