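import Mathlib
import Pool.Agent.Helper239.Hyp

open Pool.Agent.Helper239.Hyp

universe u w

/-- Let `A` be an approximately amenable unital C*-algebra, `ρ : A → B` a unital `*`-homomorphism
into a unital C*-algebra `B`, and `τ` a bounded functional on `B` with `τ(1) ≠ 0` which is tracial
on `ρ(A)`.  Then there is a state `φ` on `B` (that is, `‖φ‖ ≤ 1` and `φ(1) = 1`) with
`φ(x ρ(a)) = φ(ρ(a) x)` for all `a ∈ A` and all `x ∈ B`. -/
theorem Pool.Agent.Results.MP_86f3ed_an.Hypertrace.result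
    (A : Type u) [CStarAlgebra A] (hA : IsApproxAmenable A)
    (B : Type w) [CStarAlgebra B] (ρ : A →⋆ₐ[ℂ] B)
    (τ : B →L[ℂ] ℂ) (h1 : τ 1 ≠ 0) (hτ : ∀ a b, τ (ρ (a * b)) = τ (ρ (b * a))) :
    ∃ φ : B →L[ℂ] ℂ, ‖φ‖ ≤ 1 ∧ φ 1 = 1 ∧ ∀ a x, φ (x * ρ a) = φ (ρ a * x) :=
  hypertrace hA ρ τ h1 hτ
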